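import Pool.Agent.H.MP_3242d6_co.B

open Finset

namespace Pool.Agent.Results.MP_3242d6_co.Pow

/-- The number of `k`-subsets `B` whose stabilizer in the group of maps `x ↦ a x + b`
(written as pairs `(a, b)`, `a` a unit) is exactly `S`. -/
noncomputable def N {F : Type} [Field F] (S : Set (Fˣ × F)) (k : ℕ) : ℕ :=
  Set.ncard {B : Set F | B.ncard = k ∧ {g : Fˣ × F | (fun x => g.1 * x + g.2) '' B = B} = S}

open Pool.Agent.H.MP_3242d6_co in
theorem result (F : Type) [Field F] [Fintype F] (α : ℕ) (hq : Fintype.card F = 2 ^ α)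
    (d : ℕ) (hd : d ∣ Fintype.card F - 1) (H : AddSubgroup F)
    (hH : ∀ z : F, z ^ d = 1 → (fun x => z * x) '' (H : Set F) = H)
    (k : ℕ) (h3 : 3 ≤ k) (hk : 2 * k ≤ Fintype.card F)
    (hc : k ≡ 0 [MOD d * Nat.card H] ∨ k ≡ Nat.card H [MOD d * Nat.card H])
    (h0 : N {g : Fˣ × F | (g.1 : F) ^ d = 1 ∧ g.2 ∈ H} k = 0) : ∃ e, k = 2 ^ e := by
  classical
  by_contra! hp
  have q1 := Fintype.one_lt_card (α := F)
  have : CharP F 2 := by
    obtain ⟨p, hp⟩ := CharP.exists F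
    obtain ⟨n, h, e⟩ := FiniteField.card F p
    rwa [← (Nat.prime_dvd_prime_iff_eq h Nat.prime_two).1 (h.dvd_of_dvd_pow
      (hq ▸ e ▸ dvd_pow_self p n.ne_zero))]
  have ho : Odd d := Odd.of_dvd_nat (by
    rw [hq] at q1 ⊢
    exact Nat.Even.sub_odd q1.le (Nat.even_pow.2 ⟨even_two, by rintro rfl; omega⟩) odd_one) hd
  have hO : ∀ x : F, x ≠ 0 → #(O d x) = d := fun x hx => by
    obtain ⟨g, hg⟩ := IsCyclic.exists_ofOrder_eq_natCard (α := Fˣ)
    obtain ⟨c, hc⟩ := hd
    have p : IsPrimitiveRoot ((g : F) ^ c) d := (IsPrimitiveRoot.coe_units_iff.2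
      (IsPrimitiveRoot.orderOf g)).pow (orderOf_pos g) (by
        rw [hg, Nat.card_eq_fintype_card, Fintype.card_units, hc, mul_comm])
    refine .trans ?_ p.card_nthRootsFinset
    refine card_bij' (fun z _ => z / x) (fun z _ => z * x) ?_ ?_ (by simp [hx]) (by simp [hx]) <;>
      simp +contextual [O, Polynomial.mem_nthRootsFinset ho.pos, div_pow, mul_pow, hx]
  let K : Subfield F :=
    { carrier := {a | ∀ h ∈ H, a * h ∈ H}
      mul_mem' := fun ha hb h hh => mul_assoc _ _ h ▸ ha _ (hb h hh)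
      one_mem' := by simp
      add_mem' := fun ha hb h hh => add_mul _ _ h ▸ H.add_mem (ha h hh) (hb h hh)
      zero_mem' := by simp
      neg_mem' := fun ha h hh => neg_mul _ h ▸ H.neg_mem (ha h hh)
      inv_mem' := fun a ha h hh => by
        rcases eq_or_ne a 0 with rfl | a0
        · simp
        obtain ⟨y, hy, rfl⟩ := mem_image.1 ((sb (B := univ.filter (· ∈ H)) (b := 0) a0
          (by simpa using ha)).ge (mem_filter.2 ⟨mem_univ h, hh⟩))
        simpa [a0] using hy }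
  let H' : Submodule K F := { H with smul_mem' := fun c x hx => c.2 x hx }
  obtain ⟨C, hC⟩ := H'.exists_isCompl
  let f := C.projection H' hC.symm
  have ker : ∀ x, f x = 0 ↔ x ∈ H := fun x => Submodule.projection_apply_eq_zero_iff hC.symm
  have sm : ∀ a ∈ K, ∀ x, f (a * x) = a * f x := fun a ha x => f.map_smul ⟨a, ha⟩ x
  have mK : ∀ z : F, z ^ d = 1 → z ∈ K := fun z hz h hh => (hH z hz).subset ⟨h, hh, rfl⟩
  set M := univ.image f
  have cd : ∀ B ⊆ M, #{x | f x ∈ B} = #B * Nat.card H := fun B hB => by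
    rw [card_eq_sum_card_fiberwise (f := f) (t := B) fun x hx => by simpa using hx,
      sum_congr rfl (g := fun _ => Nat.card H), sum_const, smul_eq_mul]
    intro y hy
    obtain ⟨x, -, rfl⟩ := mem_image.1 (hB hy)
    rw [Nat.card_eq_fintype_card, Fintype.card_subtype]
    refine card_bij' (fun z _ => z - x) (fun z _ => z + x) ?_ ?_ (by simp) (by simp) <;>
      simp +contextual [← ker, hy]
  have cM := cd M le_rfl
  rw [filter_true_of_mem fun x hx => mem_image_of_mem f hx, card_univ] at cM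
  obtain ⟨e, he⟩ : ∃ e, Nat.card H = 2 ^ e := by
    obtain ⟨e, -, he⟩ := (Nat.dvd_prime_pow Nat.prime_two).1 (hq ▸ Dvd.intro_left _ cM.symm)
    exact ⟨e, he⟩
  obtain ⟨j, t, rfl, ht⟩ : ∃ j t, k = j * Nat.card H ∧ (j = t * d ∨ j = t * d + 1) := by
    rcases hc with h | h
    · obtain ⟨t, rfl⟩ := Nat.modEq_zero_iff_dvd.1 h
      exact ⟨_, t, by ring, .inl rfl⟩
    · have l : Nat.card H ≤ k := Nat.le_of_dvd (by omega)
        ((h.dvd_iff (dvd_mul_left _ d)).2 dvd_rfl)
      obtain ⟨t, ht⟩ := (Nat.modEq_iff_dvd' l).1 h.symm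
      exact ⟨_, t, by rw [← Nat.sub_add_cancel l, ht]; ring, .inr rfl⟩
  obtain ⟨B, s, h1, h2, h4⟩ := core ho hO (M := M) (fun y hy z e => by
      obtain ⟨x, -, rfl⟩ := mem_image.1 hy
      rcases eq_or_ne (f x) 0 with c | c
      · rwa [show z = f x by simpa [c, ho.pos.ne'] using e]
      · exact mem_image.2 ⟨z / f x * x, mem_univ _, by
          rw [sm _ (mK _ (by rw [div_pow, e, div_self (pow_ne_zero _ c)])), div_mul_cancel₀ _ c]⟩)
    (mem_image.2 ⟨0, mem_univ _, map_zero f⟩) (fun u hu v hv => by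
      obtain ⟨x, -, rfl⟩ := mem_image.1 hu
      obtain ⟨y, -, rfl⟩ := mem_image.1 hv
      exact mem_image.2 ⟨x + y, mem_univ _, map_add f x y⟩) ht
    (Nat.le_of_mul_le_mul_right (by rwa [← cM, mul_assoc]) (Nat.card_pos (α := H)))
    (by rintro rfl; omega) fun i hi => hp (i + e) (by rw [hi, he, pow_add])
  refine Set.eq_empty_iff_forall_notMem.1 ((Set.ncard_eq_zero (Set.toFinite _)).1 h0)
    (univ.filter (f · ∈ B) : Finset F) ⟨by rw [Set.ncard_coe_finset, cd B s, h2], Set.ext fun ⟨a, b⟩ => ?_⟩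
  simp only [Set.mem_ofPred_eq]
  rw [← coe_image, coe_inj]
  refine ⟨fun g => ?_, fun g => sb a.ne_zero fun x hx => ?_⟩
  · have g1 : ∀ x, f x ∈ B → f (a * x + b) ∈ B := fun x hx =>
      (mem_filter.1 (g.le (mem_image_of_mem _ (mem_filter.2 ⟨mem_univ x, hx⟩)))).2
    have aK : (a : F) ∈ K := fun h hh => (ker _).1 (h4 1 _ one_ne_zero fun y hy => by
      obtain ⟨z, -, rfl⟩ := mem_image.1 (s hy)
      obtain ⟨x, hx, rfl⟩ := mem_image.1 (g.ge (mem_filter.2 ⟨mem_univ z, hy⟩))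
      rw [one_mul, ← map_add, add_right_comm, ← mul_add]
      exact g1 _ (by simpa [(ker h).2 hh] using hx)).1
    have := h4 a (f b) a.ne_zero fun y hy => by
      obtain ⟨z, -, rfl⟩ := mem_image.1 (s hy)
      rw [← sm _ aK, ← map_add]
      exact g1 z hy
    exact ⟨this.2, (ker b).1 this.1⟩
  · simp only [mem_filter, mem_univ, true_and, map_add, (ker b).2 g.2, add_zero,
      sm _ (mK _ g.1)] at hx ⊢
    exact h1 _ hx _ (by rw [mul_pow, g.1, one_mul])

end Pool.Agent.Results.MP_3242d6_co.Pow
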